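import Pool.Agent.MP_670f9a_nt.H83.AllF

/-!
An absolute lower bound for the Mahler measure of an irreducible integer polynomial in two
variables whose Newton polygon is two-dimensional, for each of its complex factors.
-/

namespace Pool.Agent.Results.MP_670f9a_nt.AbsoluteMahler

open Real

/-- The exponents `(i, j)` of the monomials of `P`, as points of the real plane. -/
def exponents (P : MvPolynomial (Fin 2) ℤ) : Set (Fin 2 → ℝ) :=
  (fun (m : Fin 2 →₀ ℕ) (i : Fin 2) => (m i : ℝ)) '' (P.support : Set (Fin 2 →₀ ℕ))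

/-- The logarithmic Mahler measure: the mean of `log |P(u, v)|` over `|u| = |v| = 1`. -/
noncomputable def logMahler (P : MvPolynomial (Fin 2) ℤ) : ℝ :=
  circleAverage (fun u : ℂ =>
    circleAverage (fun v : ℂ => log ‖MvPolynomial.aeval ![u, v] P‖) 0 1) 0 1

theorem result : ∃ c : ℝ, 0 < c ∧
    ∀ (P : MvPolynomial (Fin 2) ℤ) (s : ℕ) (F : Fin s → MvPolynomial (Fin 2) ℂ),
      Irreducible P → ¬ Collinear ℝ (exponents P) → (∀ i, ¬ IsUnit (F i)) →
      ∏ i, F i = MvPolynomial.map (Int.castRingHom ℂ) P →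
      c * s ≤ logMahler P :=
  MP_670f9a_nt.GL.allMainF

end Pool.Agent.Results.MP_670f9a_nt.AbsoluteMahler
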