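import Pool.Agent.MP_670f9a_nt.H6.Construct

/-!
The two-dimensional Schinzel–Zassenhaus bound, for the pairs with `n(α, β) = deg (α / β)`, is
equivalent to Lehmer's conjecture, with the same constant.
-/

namespace Pool.Agent.Results.MP_670f9a_nt.LehmerEquiv

open Polynomial IntermediateField NumberField Module Pool.Agent.MP_670f9a_nt.H6

/-- `n(α, β)`: the least total degree of a nonzero integer polynomial vanishing at `(α, β)`. -/
noncomputable def vanishDeg (α β : ℂ) : ℕ :=
  sInf {n | ∃ P : MvPolynomial (Fin 2) ℤ, P ≠ 0 ∧ P.totalDegree = n ∧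
    MvPolynomial.aeval ![α, β] P = 0}

theorem result (c : ℝ) :
    (∀ P : ℤ[X], 1 < (P.map (Int.castRingHom ℂ)).mahlerMeasure →
      c ≤ Real.log (P.map (Int.castRingHom ℂ)).mahlerMeasure) ↔
    (∀ α β : ℂ, IsIntegral ℤ α → IsIntegral ℤ β → α ≠ 0 → β ≠ 0 →
      (∀ a b : ℤ, α ^ a * β ^ b = 1 → a = 0 ∧ b = 0) →
      vanishDeg α β = (minpoly ℚ (α / β)).natDegree →
      ∃ σ : ℚ⟮α, β⟯ →+* ℂ,
        c / vanishDeg α β ≤ Real.log ‖σ ⟨α, subset_adjoin ℚ _ (Or.inl rfl)⟩‖ ∨
        c / vanishDeg α β ≤ Real.log ‖σ ⟨β, subset_adjoin ℚ _ (Or.inr rfl)⟩‖) := by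
  constructor
  · intro H α β hα hβ hα0 hβ0 hind hn
    by_contra hcon
    push Not at hcon
    let L := ℚ⟮α, β⟯
    have : NumberField L := { to_finiteDimensional := finiteDimensional_adjoin (by
      rintro x (rfl | rfl)
      · exact hα.tower_top
      · exact hβ.tower_top) }
    let a : L := ⟨α, subset_adjoin ℚ _ (Or.inl rfl)⟩
    let b : L := ⟨β, subset_adjoin ℚ _ (Or.inr rfl)⟩
    have ha0 : a ≠ 0 := fun h => hα0 (congrArg Subtype.val h)
    have hb0 : b ≠ 0 := fun h => hβ0 (congrArg Subtype.val h)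
    have hmin : minpoly ℚ (a / b) = minpoly ℚ (α / β) := by
      rw [← minpoly.algebraMap_eq (algebraMap L ℂ).injective, map_div₀]
      rfl
    have hq : IsIntegral ℚ (a / b) := Algebra.IsIntegral.isIntegral _
    set μ := minpoly ℚ (a / b) with hμ
    have hμ0 : μ ≠ 0 := minpoly.ne_zero hq
    set Q : ℤ[X] := IsLocalization.integerNormalization (nonZeroDivisors ℤ) μ with hQ
    have hQ0 : Q ≠ 0 := fun h => hμ0 (IsFractionRing.integerNormalization_eq_zero_iff.1 h)
    obtain ⟨d, hd, hdQ⟩ := IsLocalization.integerNormalization_spec (nonZeroDivisors ℤ) μ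
    have hP := Q.isPrimitive_primPart
    have hdv : Q.primPart.map (Int.castRingHom ℚ) ∣ μ := by
      have h1 : Q.primPart.map (Int.castRingHom ℚ) ∣ d • μ := by
        rw [← hdQ]
        exact Polynomial.map_dvd _ Q.primPart_dvd
      rw [zsmul_eq_mul, ← map_intCast (C : ℚ →+* ℚ[X])] at h1
      exact (isUnit_C.2 (IsUnit.mk0 _ (by
        exact_mod_cast nonZeroDivisors.ne_zero hd))).dvd_mul_left.1 h1
    have hroot : aeval (α / β) Q.primPart = 0 := by
      refine aeval_primPart_eq_zero hQ0 ?_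
      refine IsLocalization.integerNormalization_aeval_eq_zero _ _ ?_
      rw [hmin, minpoly.aeval]
    have hM1 : 1 < (Q.primPart.map (Int.castRingHom ℂ)).mahlerMeasure := by
      refine (one_le_mahlerMeasure_of_ne_zero hP.ne_zero).lt_of_ne fun h => ?_
      obtain ⟨k, hk, hk1⟩ := pow_eq_one_of_mahlerMeasure_eq_one h.symm (div_ne_zero hα0 hβ0)
        (mem_aroots.2 ⟨hP.ne_zero, hroot⟩)
      have := (hind k (-k) (by
        rw [zpow_neg, zpow_natCast, zpow_natCast, ← div_eq_mul_inv, ← div_pow, hk1])).1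
      omega
    have h1 := H _ hM1
    have h2 := mahler_le (α := a) (β := b) (coe_isIntegral_iff.mp hα) (coe_isIntegral_iff.mp hβ)
      hb0 hP hdv
    have h3 := deg_mul (a / b)
    set e := finrank ℚ⟮a / b⟯ L
    rw [← hmin] at hn
    rw [hn] at hcon
    have hm : (0 : ℝ) < μ.natDegree := by exact_mod_cast minpoly.natDegree_pos hq
    have h4 : ∏ σ : L →+* ℂ, max ‖σ b‖ ‖σ a‖ < ∏ _σ : L →+* ℂ, Real.exp (c / μ.natDegree) := by
      refine Finset.prod_lt_prod_of_nonempty
        (fun σ _ => lt_max_of_lt_left (norm_pos_iff.2 ((map_ne_zero σ).2 hb0)))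
        (fun σ _ => max_lt ?_ ?_) Finset.univ_nonempty
      · exact (Real.log_lt_iff_lt_exp (norm_pos_iff.2 ((map_ne_zero σ).2 hb0))).1 (hcon σ).2
      · exact (Real.log_lt_iff_lt_exp (norm_pos_iff.2 ((map_ne_zero σ).2 ha0))).1 (hcon σ).1
    rw [Finset.prod_const, Finset.card_univ, Embeddings.card, ← h3, pow_mul, ← Real.exp_nat_mul,
      mul_div_cancel₀ _ hm.ne'] at h4
    have h5 : Real.exp c ≤ (Q.primPart.map (Int.castRingHom ℂ)).mahlerMeasure :=
      (Real.le_log_iff_exp_le (by positivity)).1 h1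
    exact (h2.trans_lt h4).not_ge (pow_le_pow_left₀ (by positivity) h5 e)
  · intro H
    have key : ∀ θ : ℂ, IsIntegral ℤ θ → 1 < ‖θ‖ →
        c ≤ Real.log ((minpoly ℚ θ).map (algebraMap ℚ ℂ)).mahlerMeasure := by
      intro θ hθ h1
      have hθ0 : θ ≠ 0 := by rintro rfl; norm_num at h1
      have hm : (0 : ℝ) < (minpoly ℚ θ).natDegree := by
        exact_mod_cast minpoly.natDegree_pos (hθ.tower_top : IsIntegral ℚ θ)
      rw [← div_le_div_iff_of_pos_right hm]
      refine le_of_forall_pos_le_add fun ε hε => ?_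
      obtain ⟨β, hβ, hβ0, hind, hdeg, hσ⟩ := construct hθ h1 hε
      have hn : vanishDeg (θ * β) β = (minpoly ℚ θ).natDegree := by
        obtain ⟨G, hG0, hG1, hG2⟩ := degree_upper hθ hβ0
        refine le_antisymm (le_trans (Nat.sInf_le ⟨G, hG0, rfl, hG2⟩) hG1) ?_
        refine le_csInf ⟨_, G, hG0, rfl, hG2⟩ ?_
        rintro _ ⟨G', h0, rfl, h2⟩
        exact degree_lower rfl hdeg G' h0 h2
      obtain ⟨σ, h⟩ := H (θ * β) β (hθ.mul hβ) hβ (mul_ne_zero hθ0 hβ0) hβ0 hind
        (by rw [hn, mul_div_cancel_right₀ _ hβ0])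
      have hb : β ∈ ℚ⟮θ * β, β⟯ := subset_adjoin ℚ _ (Or.inr rfl)
      have ht : θ ∈ ℚ⟮θ * β, β⟯ := by
        have := div_mem (subset_adjoin ℚ {θ * β, β} (Or.inl rfl)) hb
        rwa [mul_div_cancel_right₀ _ hβ0] at this
      refine le_trans ?_ (hσ _ ht hb σ)
      have hb0 : 0 < ‖σ ⟨β, hb⟩‖ :=
        norm_pos_iff.2 ((map_ne_zero σ).2 fun h => hβ0 (congrArg Subtype.val h))
      have ht0 : 0 < ‖σ ⟨θ, ht⟩‖ :=
        norm_pos_iff.2 ((map_ne_zero σ).2 fun h => hθ0 (congrArg Subtype.val h))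
      rw [hn] at h
      rcases h with h | h
      · refine h.trans ?_
        have : σ ⟨θ * β, subset_adjoin ℚ _ (Or.inl rfl)⟩ = σ ⟨β, hb⟩ * σ ⟨θ, ht⟩ := by
          rw [← map_mul]
          exact congrArg σ (Subtype.ext (mul_comm θ β))
        rw [this, norm_mul]
        exact Real.log_le_log (by positivity) (by gcongr; exact le_max_right _ _)
      · exact h.trans (Real.log_le_log hb0 (le_mul_of_one_le_right hb0.le (le_max_left _ _)))
    intro P hP
    have hP0 : P ≠ 0 := by rintro rfl; norm_num at hP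
    by_cases hl : 2 ≤ |P.leadingCoeff|
    · have h2 := key 2 (isIntegral_natCast 2) (by simp)
      have h3 : minpoly ℚ (2 : ℂ) = X - C 2 := by
        simpa using minpoly.eq_X_sub_C ℂ (2 : ℚ)
      rw [h3, Polynomial.map_sub, map_X, map_C, mahlerMeasure_X_sub_C] at h2
      refine h2.trans (Real.log_le_log (by positivity) ?_)
      refine le_trans ?_ (leadingCoeff_le_mahlerMeasure _)
      rw [leadingCoeff_map_of_injective (Int.castRingHom ℂ).injective_int, eq_intCast,
        Complex.norm_intCast]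
      have : (2 : ℝ) ≤ |(P.leadingCoeff : ℝ)| := by exact_mod_cast hl
      simpa using this
    · have hl1 : |P.leadingCoeff| = 1 := by
        have := abs_pos.2 (leadingCoeff_ne_zero.2 hP0)
        omega
      obtain ⟨θ, hθ, h1⟩ : ∃ θ ∈ (P.map (Int.castRingHom ℂ)).roots, 1 < ‖θ‖ := by
        by_contra hc
        push Not at hc
        rw [mahlerMeasure_eq_leadingCoeff_mul_prod_roots,
          leadingCoeff_map_of_injective (Int.castRingHom ℂ).injective_int, eq_intCast,
          Complex.norm_intCast, ← Int.cast_abs, hl1, Multiset.prod_eq_one (by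
            simpa only [Multiset.forall_mem_map_iff, max_eq_left_iff] using hc)] at hP
        norm_num at hP
      have hr : aeval θ P = 0 := by
        have := (mem_roots'.1 hθ).2
        rwa [IsRoot.def, eval_map] at this
      have hi : IsIntegral ℤ θ := by
        have hu : P.leadingCoeff * P.leadingCoeff = 1 := by
          rw [← abs_mul_abs_self, hl1, one_mul]
        refine ⟨C P.leadingCoeff * P, monic_C_mul_of_mul_leadingCoeff_eq_one hu, ?_⟩
        rw [← aeval_def, map_mul, hr, mul_zero]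
      obtain ⟨T, hT⟩ := minpoly.isIntegrallyClosed_dvd hi hr
      have hT0 : T ≠ 0 := by rintro rfl; exact hP0 (by rw [hT, mul_zero])
      have h2 := key θ hi h1
      rw [minpoly.isIntegrallyClosed_eq_field_fractions' ℚ hi, Polynomial.map_map,
        show (algebraMap ℚ ℂ).comp (algebraMap ℤ ℚ) = Int.castRingHom ℂ from
          Subsingleton.elim _ _] at h2
      have h3 := one_le_mahlerMeasure_of_ne_zero (minpoly.ne_zero hi)
      refine h2.trans (Real.log_le_log (by positivity) ?_)
      conv_rhs => rw [hT, Polynomial.map_mul, mahlerMeasure_mul]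
      exact le_mul_of_one_le_right (by positivity) (one_le_mahlerMeasure_of_ne_zero hT0)

end Pool.Agent.Results.MP_670f9a_nt.LehmerEquiv
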