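import Pool.Agent.MP_670f9a_nt.H13.All3
import Pool.Agent.MP_670f9a_nt.H83.All
import Pool.Agent.MP_670f9a_nt.H83.Height

/-!
The two-dimensional Schinzel-Zassenhaus bound in height form, without logarithms, for all pairs
of large degree on a curve whose Newton polygon is two-dimensional.
-/

namespace Pool.Agent.Results.MP_670f9a_nt.OffSubtori

open Real

/-- The exponents `(i, j)` of the monomials of `P`, as points of the real plane. -/
def exponents (P : MvPolynomial (Fin 2) ℤ) : Set (Fin 2 → ℝ) :=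
  (fun (m : Fin 2 →₀ ℕ) (i : Fin 2) => (m i : ℝ)) '' (P.support : Set (Fin 2 →₀ ℕ))

theorem result : ∃ c C : ℝ, 0 < c ∧
    ∀ (K : Type) [Field K] [NumberField K] (α β : K) (P : MvPolynomial (Fin 2) ℤ) (n : ℕ),
      IsIntegral ℤ α → IsIntegral ℤ β → IntermediateField.adjoin ℚ {α, β} = ⊤ →
      P ≠ 0 → MvPolynomial.aeval ![α, β] P = 0 → P.totalDegree = n →
      (∀ Q : MvPolynomial (Fin 2) ℤ, Q ≠ 0 → MvPolynomial.aeval ![α, β] Q = 0 →
        n ≤ Q.totalDegree) →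
      ¬ Collinear ℝ (exponents P) →
      C * (n ^ 2 * log (2 * n)) ≤ (Module.finrank ℚ K : ℝ) →
      c / n * Module.finrank ℚ K ≤ ∑ σ : K →+* ℂ, (log⁺ ‖σ α‖ + log⁺ ‖σ β‖) := by
  obtain ⟨c, C, hc, h⟩ :=
    MP_670f9a_nt.GL.height_abs MP_670f9a_nt.GL.allMain MP_670f9a_nt.NP.allZhang
  refine ⟨c, C, hc, ?_⟩
  intro K _ _ α β P n hα hβ hK hP hev hn hmin hcol hD
  obtain ⟨Q, h1, h2, h3⟩ := MP_670f9a_nt.NP.exists_irred α β P hP hev (by rwa [hn])
  refine h K α β Q n hα hβ hK h1 h2 ?_ ?_ hD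
  · rw [← hn, MvPolynomial.totalDegree, h3]
    exact le_rfl
  · rw [h3]
    exact hcol

end Pool.Agent.Results.MP_670f9a_nt.OffSubtori
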