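import Pool.Agent.MP_670f9a_nt.H76.Main2

/-!
The two-dimensional Schinzel-Zassenhaus bound, without logarithms, for pairs in which `β` has
the full degree `d` over `ℚ(α)` and `α` has large degree.
-/

namespace Pool.Agent.Results.MP_670f9a_nt.RelativeSZ

open IntermediateField Pool.Agent.MP_670f9a_nt.H13

theorem result : ∃ c C : ℝ, 0 < c ∧
    ∀ (α β : ℂ) (L d : ℕ) (P : MvPolynomial (Fin 2) ℤ),
      IsIntegral ℤ α → IsIntegral ℤ β → α ≠ 0 → β ≠ 0 →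
      (∀ a b : ℤ, α ^ a * β ^ b = 1 → a = 0 ∧ b = 0) →
      1 ≤ L → P ≠ 0 → MvPolynomial.aeval ![α, β] P = 0 →
      (∀ s ∈ P.support, s 0 * d + s 1 * L ≤ L * d) →
      (minpoly ℚ⟮α⟯ β).natDegree = d →
      C * (L * (d + Real.log (2 * L))) ≤ ((minpoly ℚ α).natDegree : ℝ) →
      ∃ σ : ℚ⟮α, β⟯ →+* ℂ,
        c / L ≤ Real.log ‖σ ⟨α, subset_adjoin ℚ _ (Or.inl rfl)⟩‖ ∨
        c / d ≤ Real.log ‖σ ⟨β, subset_adjoin ℚ _ (Or.inr rfl)⟩‖ := by
  refine ⟨1 / 10 ^ 8, 10 ^ 11, by norm_num, ?_⟩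
  intro α β L d P hα hβ hα0 hβ0 hind hL hP hev hsupp hd hm
  obtain ⟨F, hF, hF'⟩ := exists_bivar P
  refine Pool.Agent.MP_670f9a_nt.H76.allMain2 α β L d F hα hβ hα0 hβ0 hind hL ?_ ((hF' α β).trans hev) ?_ hd hm
  · rintro rfl
    apply hP
    ext s
    have hs : s = Finsupp.single 0 (s 0) + Finsupp.single 1 (s 1) := by
      ext k
      fin_cases k <;> simp
    rw [hs, ← hF]
    simp
  · intro i j hij
    rw [hF] at hij
    simpa using hsupp _ (MvPolynomial.mem_support_iff.2 hij)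

end Pool.Agent.Results.MP_670f9a_nt.RelativeSZ
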